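import Pool.Agent.Helper96.AW.GoalsA
import Pool.Agent.Helper26.AL.All

/-!
Project AW (MP_af6c86_pr), packet NC: the limit of the probability that there is no complex component
(helper25).
-/

namespace Pool.Agent.Helper25.AW.NC

open Finset Filter Topology Pool.Agent.Helper26.AF Pool.Agent.Helper26.AL Pool.Agent.Helper96.AW

lemma empty_iff {n R : ℕ} (G : SimpleGraph (Fin n)) (h : ¬ R + 2 ≤ ZZ G) :
    cxs R G = ∅ ↔ ZZ G = 0 := by
  classical
  have h1 : ∀ Q, IsComp G Q → eIn G Q ≤ #Q + R := by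
    by_contra h5
    exact h (Pool.Agent.Helper47.AL.ZZ_ge G h5)
  constructor
  · intro h2
    unfold ZZ
    refine Finset.sum_eq_zero fun Q _ => ?_
    unfold zq
    rw [if_neg]
    rintro ⟨h3, h4⟩
    have h5 : Q ∈ cxs R G := by
      unfold cxs
      exact mem_filter.2 ⟨mem_univ _, h3, h4, h1 Q h3⟩
    rw [h2] at h5
    exact absurd h5 (Finset.notMem_empty Q)
  · intro h2
    rw [Finset.eq_empty_iff_forall_notMem]
    intro Q hQ
    unfold cxs at hQ
    obtain ⟨h3, h4, -⟩ := (mem_filter.1 hQ).2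
    unfold ZZ at h2
    have h5 := (Finset.sum_eq_zero_iff.1 h2) Q (mem_univ Q)
    unfold zq at h5
    rw [if_pos ⟨h3, h4⟩] at h5
    omega

/-- The estimate for fixed `R`. -/
lemma main_est (hNA : S_NA) (hUPE : StmtUPE) (hUPP : StmtUPP) (l : ℝ) :
    ∃ C : ℝ, 0 < C ∧ ∀ R : ℕ, ∀ᶠ n : ℕ in atTop,
      |Pr (pc l n) (fun G : SimpleGraph (Fin n) => ZZ G = 0)
        - ∑ r ∈ range (R + 1), TD n (pc l n) r| ≤ C * (10 / 11) ^ R := by
  obtain ⟨C₁, hC₁, h1⟩ := hUPE l (19 / 10) (by norm_num) (by norm_num)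
  obtain ⟨C₂, hC₂, h2⟩ := hUPP l (19 / 10) (by norm_num) (by norm_num)
  refine ⟨C₁ + C₂, by positivity, fun R => ?_⟩
  filter_upwards [h1 R, h2 (R + 2), Pool.Agent.Helper69.AF.pc_event' l] with n hn1 hn2 hp
  have hp0 := hp.1.le
  have hp1 := hp.2.le
  have h3 : |Pr (pc l n) (fun G : SimpleGraph (Fin n) => ZZ G = 0) -
      Pr (pc l n) (fun G : SimpleGraph (Fin n) => cxs R G = ∅)| ≤
      C₂ / (19 / 10) ^ (R + 2) := by
    refine le_trans (Pool.Agent.Helper47.AL.Pr_sub_le hp0 hp1 _ _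
      (fun G : SimpleGraph (Fin n) => R + 2 ≤ ZZ G) ?_) hn2
    intro G hG
    exact (empty_iff G hG).symm
  have h4 := hNA n R (pc l n) (11 / 10) hp.1 hp.2 (by norm_num)
  have h5 : EE (pc l n) (fun G : SimpleGraph (Fin n) =>
        ∏ Q ∈ cxs R G, (1 + 2 * ((11 : ℝ) / 10) ^ (eIn G Q - #Q))) ≤ C₁ :=
    le_trans (EE_mono hp0 hp1 fun G => Pool.Agent.Helper47.AL.prod_le G) hn1
  have h6 : 1 / ((11 : ℝ) / 10) ^ R = (10 / 11) ^ R := by
    rw [one_div, ← inv_pow]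
    norm_num
  have h7 : C₂ / (19 / 10) ^ (R + 2) ≤ C₂ * (10 / 11) ^ R := by
    rw [div_eq_mul_inv]
    refine mul_le_mul_of_nonneg_left ?_ hC₂.le
    rw [← h6, one_div]
    refine inv_anti₀ (by positivity) ?_
    refine le_trans (pow_le_pow_left₀ (by norm_num) (by norm_num : (11 : ℝ) / 10 ≤ 19 / 10) R) ?_
    exact pow_le_pow_right₀ (by norm_num) (by omega)
  have h8 : |Pr (pc l n) (fun G : SimpleGraph (Fin n) => cxs R G = ∅)
      - ∑ r ∈ range (R + 1), TD n (pc l n) r| ≤ C₁ * (10 / 11) ^ R := by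
    refine le_trans h4 ?_
    rw [h6, mul_comm]
    exact mul_le_mul_of_nonneg_right h5 (by positivity)
  have h9 := abs_sub_le (Pr (pc l n) (fun G : SimpleGraph (Fin n) => ZZ G = 0))
    (Pr (pc l n) (fun G : SimpleGraph (Fin n) => cxs R G = ∅))
    (∑ r ∈ range (R + 1), TD n (pc l n) r)
  rw [add_mul]
  linarith

theorem t : Pool.Agent.Helper96.AW.S_NC := by
  intro hNA hNB l
  obtain ⟨C, hC, h1⟩ := main_est hNA okUPE okUPP l
  obtain ⟨h2, h3⟩ := Pool.Agent.Helper47.AL.concl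
    (fun n : ℕ => Pr (pc l n) (fun G : SimpleGraph (Fin n) => ZZ G = 0))
    (fun n r => TD n (pc l n) r) (fun r => dd r * JJ l r) C hC h1 (fun r => hNB l r)
  refine ⟨?_, h3⟩
  refine h2.congr fun r => ?_
  rw [abs_mul, abs_of_nonneg ((okJCO r).2.1 l)]

end Pool.Agent.Helper25.AW.NC
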